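import Pool.Agent.H80.G2.Targets

/-!
# MP_323167_an: a maximal partial isometry in the `-1`-eigenspace (row EXH)
-/

set_option autoImplicit false

open scoped InnerProductSpace Topology
open Filter Finset
open Pool.Agent.H80.G2

namespace Pool.Agent.H46.G2

variable {H : Type} [NormedAddCommGroup H] [InnerProductSpace ℂ H] [CompleteSpace H]
  {N : VonNeumannAlgebra H} {ξ : ℕ → H} {θ : (H →L[ℂ] H) → (H →L[ℂ] H)}

/-- partial isometries in the `-1`-eigenspace -/
def Good (N : VonNeumannAlgebra H) (θ : (H →L[ℂ] H) → (H →L[ℂ] H)) (v : H →L[ℂ] H) : Prop :=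
  v ∈ N ∧ θ v = -v ∧ Prj N (star v * v)

/-- orthogonal partial isometries in the `-1`-eigenspace -/
def Sp (N : VonNeumannAlgebra H) (θ : (H →L[ℂ] H) → (H →L[ℂ] H)) (v d : H →L[ℂ] H) : Prop :=
  Good N θ d ∧ d * star v = 0 ∧ star v * d = 0

/-- `w` extends `v` -/
def Ext (v w : H →L[ℂ] H) : Prop := star v * w = star v * v ∧ w * star v = v * star v

theorem good_mul {v : H →L[ℂ] H} (hv : Good N θ v) : v * (star v * v) = v := by
  obtain ⟨_, _, _, hs, hp⟩ := hv
  have h1 : star (v * (star v * v) - v) * (v * (star v * v) - v) = 0 := by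
    have e1 : star (v * (star v * v) - v) = (star v * v) * star v - star v := by
      rw [star_sub, star_mul, hs]
    rw [e1]
    have e2 : ((star v * v) * star v - star v) * (v * (star v * v) - v) =
        (star v * v) * (star v * v) * (star v * v) - (star v * v) * (star v * v)
          - (star v * v) * (star v * v) + star v * v := by noncomm_ring
    rw [e2, hp, hp]
    abel
  have h2 := CStarRing.star_mul_self_eq_zero_iff _ |>.1 h1
  exact sub_eq_zero.1 h2

theorem good_star {v : H →L[ℂ] H} (hv : Good N θ v) : (star v * v) * star v = star v := by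
  have h1 := congrArg star (good_mul hv)
  rw [star_mul, star_mul, star_star] at h1
  exact h1

theorem good_norm {v : H →L[ℂ] H} (hv : Good N θ v) : ‖v‖ ≤ 1 := by
  have h1 := CStarRing.norm_star_mul_self (x := v)
  have h2 := good_mul hv
  by_contra h3
  push Not at h3
  -- ‖p‖ = ‖p‖ ^ 2
  have h4 := CStarRing.norm_star_mul_self (x := star v * v)
  rw [hv.2.2.2.1, hv.2.2.2.2] at h4
  have h5 : ‖star v * v‖ ≤ 1 := by
    by_contra h6
    push Not at h6
    nlinarith
  nlinarith

/-- the sum of orthogonal elements -/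
theorem good_add (hθ : Inv N ξ θ) {v d : H →L[ℂ] H} (hv : Good N θ v) (hd : Sp N θ v d) :
    Good N θ (v + d) := by
  obtain ⟨hg, h1, h2⟩ := hd
  have h1' : v * star d = 0 := by
    have := congrArg star h1
    rwa [star_mul, star_star, star_zero] at this
  have h2' : star d * v = 0 := by
    have := congrArg star h2
    rwa [star_mul, star_star, star_zero] at this
  have e : star (v + d) * (v + d) = star v * v + star d * d := by
    rw [star_add, add_mul, mul_add, mul_add, h2, h2', add_zero, zero_add]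
  refine ⟨add_mem hv.1 hg.1, ?_, ?_, ?_, ?_⟩
  · rw [hθ.add _ hv.1 _ hg.1, hv.2.1, hg.2.1]
    abel
  · rw [e]
    exact add_mem hv.2.2.1 hg.2.2.1
  · rw [e, star_add, hv.2.2.2.1, hg.2.2.2.1]
  · rw [e]
    have e1 : (star v * v) * (star d * d) = 0 := by
      rw [mul_assoc, ← mul_assoc v, h1', zero_mul, mul_zero]
    have e2 : (star d * d) * (star v * v) = 0 := by
      rw [mul_assoc, ← mul_assoc d, h1, zero_mul, mul_zero]
    rw [add_mul, mul_add, mul_add, e1, e2, hv.2.2.2.2, hg.2.2.2.2, add_zero, zero_add]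

theorem ext_add {v d : H →L[ℂ] H} (hd : Sp N θ v d) : Ext v (v + d) := by
  obtain ⟨_, h1, h2⟩ := hd
  exact ⟨by rw [mul_add, h2, add_zero], by rw [add_mul, h1, add_zero]⟩

theorem ext_refl (v : H →L[ℂ] H) : Ext v v := ⟨rfl, rfl⟩

theorem Ext.star1 {v w : H →L[ℂ] H} (h : Ext v w) : star w * v = star v * v := by
  have := congrArg star h.1
  rwa [star_mul, star_mul, star_star] at this

theorem Ext.star2 {v w : H →L[ℂ] H} (h : Ext v w) : v * star w = v * star v := by
  have := congrArg star h.2
  rwa [star_mul, star_mul, star_star] at this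

theorem ext_trans {v w u : H →L[ℂ] H} (hv : Good N θ v) (h1 : Ext v w) (h2 : Ext w u) :
    Ext v u := by
  have hs := good_star hv
  constructor
  · calc star v * u = (star v * (v * star v)) * u := by rw [← mul_assoc (star v), hs]
      _ = star v * (v * star w) * u := by rw [h1.star2]
      _ = star v * v * (star w * u) := by noncomm_ring
      _ = star v * v * (star w * w) := by rw [h2.1]
      _ = star v * (v * star w) * w := by noncomm_ring
      _ = (star v * v * star v) * w := by rw [h1.star2]; noncomm_ring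
      _ = star v * w := by rw [hs]
      _ = star v * v := h1.1
  · calc u * star v = u * ((star v * v) * star v) := by rw [hs]
      _ = u * ((star w * v) * star v) := by rw [h1.star1]
      _ = (u * star w) * (v * star v) := by noncomm_ring
      _ = (w * star w) * (v * star v) := by rw [h2.2]
      _ = w * ((star w * v) * star v) := by noncomm_ring
      _ = w * ((star v * v) * star v) := by rw [h1.star1]
      _ = w * star v := by rw [hs]
      _ = v * star v := h1.2

/-- orthogonality with a larger element -/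
theorem sp_of_ext {v w d : H →L[ℂ] H} (hv : Good N θ v) (h1 : Ext v w) (hd : Sp N θ w d) :
    Sp N θ v d := by
  have hs := good_star hv
  refine ⟨hd.1, ?_, ?_⟩
  · calc d * star v = d * ((star v * v) * star v) := by rw [hs]
      _ = d * ((star w * v) * star v) := by rw [h1.star1]
      _ = (d * star w) * (v * star v) := by noncomm_ring
      _ = 0 := by rw [hd.2.1, zero_mul]
  · calc star v * d = (star v * (v * star v)) * d := by rw [← mul_assoc (star v), hs]
      _ = star v * (v * star w) * d := by rw [h1.star2]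
      _ = star v * v * (star w * d) := by noncomm_ring
      _ = 0 := by rw [hd.2.2, mul_zero]

/-- the 2-norm of an extension -/
theorem n2_ext (hN : IsTr N ξ) {v w : H →L[ℂ] H} (h : Ext v w) :
    n2 ξ w ^ 2 = n2 ξ v ^ 2 + n2 ξ (w - v) ^ 2 := by
  have e : star w * w = star v * v + star (w - v) * (w - v) := by
    have h1 := h.1
    have h2 := h.star1
    rw [star_sub, sub_mul, mul_sub, mul_sub, h1, h2]
    abel
  have h3 := congrArg (tr ξ) e
  rw [tr_add hN.sum, tr_star_mul hN.sum, tr_star_mul hN.sum, tr_star_mul hN.sum] at h3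
  exact_mod_cast h3

/-- a good step -/
theorem step (hN : IsTr N ξ) (hθ : Inv N ξ θ) (v : H →L[ℂ] H) :
    ∃ d, Sp N θ v d ∧ ∀ w, Sp N θ v w → n2 ξ w ^ 2 ≤ 2 * n2 ξ d ^ 2 := by
  have h0 : Sp N θ v 0 := by
    have h1 : θ 0 = 0 := by
      have h2 := hθ.smul 0 0 (zero_mem N)
      rwa [zero_smul, zero_smul] at h2
    refine ⟨⟨zero_mem N, ?_, ?_, ?_, ?_⟩, ?_, ?_⟩
    · rw [h1, neg_zero]
    · rw [mul_zero]
      exact zero_mem N
    · rw [mul_zero, star_zero]
    · rw [mul_zero, mul_zero]
    · rw [zero_mul]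
    · rw [mul_zero]
  set A : Set ℝ := {t | ∃ w, Sp N θ v w ∧ t = n2 ξ w ^ 2} with hA
  have hne : A.Nonempty := ⟨_, 0, h0, rfl⟩
  have hb : BddAbove A := by
    refine ⟨1, ?_⟩
    rintro t ⟨w, hw, rfl⟩
    have h1 := n2_le_norm hN.one w
    have h2 := good_norm hw.1
    have h3 := n2_nonneg ξ w
    nlinarith
  by_cases hs : 0 < sSup A
  · obtain ⟨t, ⟨d, hd, rfl⟩, ht⟩ := exists_lt_of_lt_csSup hne (half_lt_self hs)
    refine ⟨d, hd, fun w hw => ?_⟩
    have := le_csSup hb ⟨w, hw, rfl⟩
    linarith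
  · refine ⟨0, h0, fun w hw => ?_⟩
    have := le_csSup hb ⟨w, hw, rfl⟩
    rw [n2_zero]
    push Not at hs
    linarith

/-- EXH. A maximal partial isometry in the `-1`-eigenspace. -/
theorem pf_EXH (hCMP : T_CMP) : T_EXH := by
  intro H _ _ _ N ξ θ hN hθ
  have hstep := fun v => step (v := v) hN hθ
  choose f hf1 hf2 using hstep
  -- the sequence
  let V : ℕ → (H →L[ℂ] H) := fun n => Nat.rec 0 (fun _ x => x + f x) n
  have hV0 : V 0 = 0 := rfl
  have hVs : ∀ n, V (n + 1) = V n + f (V n) := fun n => rfl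
  have hθ0 : θ 0 = 0 := by
    have h2 := hθ.smul 0 0 (zero_mem N)
    rwa [zero_smul, zero_smul] at h2
  have hgood : ∀ n, Good N θ (V n) := by
    intro n
    induction n with
    | zero =>
      rw [hV0]
      refine ⟨zero_mem N, ?_, ?_, ?_, ?_⟩
      · rw [hθ0, neg_zero]
      · rw [mul_zero]
        exact zero_mem N
      · rw [mul_zero, star_zero]
      · rw [mul_zero, mul_zero]
    | succ n ih =>
      rw [hVs]
      exact good_add hθ ih (hf1 _)
  have hext : ∀ n k, Ext (V n) (V (n + k)) := by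
    intro n k
    induction k with
    | zero => exact ext_refl _
    | succ k ih =>
      refine ext_trans (hgood n) ih ?_
      rw [← add_assoc, hVs]
      exact ext_add (hf1 _)
  have hext' : ∀ n m, n ≤ m → Ext (V n) (V m) := by
    intro n m h
    obtain ⟨k, rfl⟩ := Nat.exists_eq_add_of_le h
    exact hext n k
  -- the squares of the 2-norms
  have hmono : Monotone fun n => n2 ξ (V n) ^ 2 := by
    refine monotone_nat_of_le_succ fun n => ?_
    have h1 := n2_ext hN (hext' n (n + 1) (Nat.le_succ n))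
    have h2 := sq_nonneg (n2 ξ (V (n + 1) - V n))
    linarith
  have hle : ∀ n, n2 ξ (V n) ^ 2 ≤ 1 := by
    intro n
    have h1 := n2_le_norm hN.one (V n)
    have h2 := good_norm (hgood n)
    have h3 := n2_nonneg ξ (V n)
    nlinarith
  have hconv : ∃ l, Tendsto (fun n => n2 ξ (V n) ^ 2) atTop (𝓝 l) :=
    ⟨_, tendsto_atTop_ciSup hmono ⟨1, by rintro _ ⟨n, rfl⟩; exact hle n⟩⟩
  obtain ⟨l, hl⟩ := hconv
  have hcau := hl.cauchySeq
  rw [Metric.cauchySeq_iff] at hcau
  have hC : ∀ ε : ℝ, 0 < ε → ∃ K, ∀ j, K ≤ j → ∀ k, K ≤ k → n2 ξ (V j - V k) < ε := by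
    intro ε hε
    obtain ⟨K, hK⟩ := hcau (ε ^ 2) (by positivity)
    have key : ∀ j k, K ≤ j → j ≤ k → n2 ξ (V k - V j) < ε := by
      intro j k hj hjk
      have h1 := n2_ext hN (hext' j k hjk)
      have h2 := hK k (hj.trans hjk) j hj
      rw [Real.dist_eq] at h2
      have h3 := (abs_lt.1 h2).2
      have h4 : n2 ξ (V k - V j) ^ 2 < ε ^ 2 := by linarith
      exact lt_of_pow_lt_pow_left₀ 2 hε.le h4
    refine ⟨K, fun j hj k hk => ?_⟩
    rcases le_total j k with h | h
    · rw [n2_sub_comm]
      exact key j k hj h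
    · exact key k j hk h
  obtain ⟨z, hz, hz1, hlim⟩ := hCMP H N ξ hN V 1 (fun n => (hgood n).1)
    (fun n => good_norm (hgood n)) hC
  -- a principle for limits
  have hzero : ∀ (x : H →L[ℂ] H), x ∈ N → ∀ C : ℝ, (∃ n0, ∀ n, n0 ≤ n →
      n2 ξ x ≤ C * n2 ξ (V n - z)) → x = 0 := by
    intro x hx C ⟨n0, hn⟩
    refine eq_zero_of_n2 hN hx (le_antisymm ?_ (n2_nonneg _ _))
    have h1 : Tendsto (fun n => C * n2 ξ (V n - z)) atTop (𝓝 (C * 0)) := hlim.const_mul C
    rw [mul_zero] at h1
    exact ge_of_tendsto h1 (eventually_atTop.2 ⟨n0, hn⟩)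
  -- `z` extends all `V n`
  have hz' : ∀ n, Ext (V n) z := by
    intro n
    have hm := (hgood n).1
    have hnn := good_norm (hgood n)
    have hns : ‖star (V n)‖ ≤ 1 := by rw [norm_star]; exact hnn
    constructor
    · refine sub_eq_zero.1 (hzero _ (sub_mem (mul_mem (star_mem hm) hz)
        (mul_mem (star_mem hm) hm)) 1 ⟨n, fun m hnm => ?_⟩)
      have e : star (V n) * z - star (V n) * V n = -(star (V n) * (V m - z)) := by
        rw [← (hext' n m hnm).1]
        noncomm_ring
      rw [e, n2_neg]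
      refine (n2_mul_le hN.sum _ _).trans ?_
      exact mul_le_mul_of_nonneg_right hns (n2_nonneg _ _)
    · refine sub_eq_zero.1 (hzero _ (sub_mem (mul_mem hz (star_mem hm))
        (mul_mem hm (star_mem hm))) 1 ⟨n, fun m hnm => ?_⟩)
      have e : z * star (V n) - V n * star (V n) = -((V m - z) * star (V n)) := by
        rw [← (hext' n m hnm).2]
        noncomm_ring
      rw [e, n2_neg]
      refine (n2_mul_le' hN (sub_mem (hgood m).1 hz) (star_mem hm)).trans ?_
      rw [mul_comm]
      exact mul_le_mul_of_nonneg_right hns (n2_nonneg _ _)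
  -- `z` is a partial isometry
  have hzz : z * (star z * z) = z := by
    refine sub_eq_zero.1 (hzero _ (sub_mem (mul_mem hz (mul_mem (star_mem hz) hz)) hz) 2
      ⟨0, fun n _ => ?_⟩)
    have e : z * (star z * z) - z = (V n - z) - z * (star z * (V n - z)) := by
      have e1 : z * (star z * V n) = V n := by
        rw [(hz' n).star1, ← mul_assoc, (hz' n).2, mul_assoc, good_mul (hgood n)]
      rw [mul_sub, mul_sub, e1]
      abel
    rw [e]
    refine (n2_sub hN.sum _ _).trans ?_
    have h1 := n2_mul_le hN.sum z (star z * (V n - z))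
    have h2 := n2_mul_le hN.sum (star z) (V n - z)
    have h3 : ‖star z‖ ≤ 1 := by rw [norm_star]; exact hz1
    have h4 := n2_nonneg ξ (V n - z)
    have h5 := n2_nonneg ξ (star z * (V n - z))
    have h6 : ‖star z‖ * n2 ξ (V n - z) ≤ 1 * n2 ξ (V n - z) :=
      mul_le_mul_of_nonneg_right h3 h4
    have h7 : ‖z‖ * n2 ξ (star z * (V n - z)) ≤ 1 * n2 ξ (star z * (V n - z)) :=
      mul_le_mul_of_nonneg_right hz1 h5
    linarith
  have hθz : θ z = -z := by
    have hmem : θ z + z ∈ N := add_mem (hθ.mem z hz) hz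
    have h0 : θ z + z = 0 := by
      refine hzero _ hmem 2 ⟨0, fun n _ => ?_⟩
      have hm := (hgood n).1
      have hd : V n - z ∈ N := sub_mem hm hz
      have e1 : θ (V n) = θ (V n - z) + θ z := by
        rw [← hθ.add _ hd _ hz, sub_add_cancel]
      have e2 : θ z + z = -(θ (V n - z) + (V n - z)) := by
        have e3 : θ z = θ (V n) - θ (V n - z) := by rw [e1]; abel
        rw [e3, (hgood n).2.1]
        abel
      rw [e2, n2_neg]
      refine (n2_add hN.sum _ _).trans ?_
      rw [hθ.n2 _ hd]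
      linarith
    exact eq_neg_of_add_eq_zero_left h0
  refine ⟨z, hz, hθz, ⟨mul_mem (star_mem hz) hz, ?_, ?_⟩, ?_⟩
  · rw [star_mul, star_star]
  · rw [mul_assoc, hzz]
  · intro w hw hθw hpw h1 h2
    have hgz : Good N θ z := ⟨hz, hθz, mul_mem (star_mem hz) hz,
      by rw [star_mul, star_star], by rw [mul_assoc, hzz]⟩
    have hgw : Good N θ w := ⟨hw, hθw, hpw⟩
    have hsz := good_star hgz
    have hsp : Sp N θ z w := by
      refine ⟨hgw, ?_, ?_⟩
      · calc w * star z = w * (star z * z * star z) := by rw [hsz]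
          _ = (w * (star z * z)) * star z := by noncomm_ring
          _ = 0 := by rw [h1, zero_mul]
      · calc star z * w = (star z * z * star z) * w := by rw [hsz]
          _ = star z * (z * star z * w) := by noncomm_ring
          _ = 0 := by rw [h2, mul_zero]
    have hall : ∀ n, n2 ξ w ^ 2 ≤ 2 * n2 ξ (f (V n)) ^ 2 := fun n =>
      hf2 _ _ (sp_of_ext (hgood n) (hz' n) hsp)
    have hstep0 : Tendsto (fun n => n2 ξ (f (V n)) ^ 2) atTop (𝓝 0) := by
      have e : ∀ n, n2 ξ (f (V n)) ^ 2 = n2 ξ (V (n + 1)) ^ 2 - n2 ξ (V n) ^ 2 := by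
        intro n
        have h1 := n2_ext hN (hext' n (n + 1) (Nat.le_succ n))
        have h2 : V (n + 1) - V n = f (V n) := by rw [hVs]; abel
        rw [h2] at h1
        linarith
      have h3 : Tendsto (fun n => n2 ξ (V (n + 1)) ^ 2 - n2 ξ (V n) ^ 2) atTop (𝓝 (l - l)) :=
        (hl.comp (tendsto_add_atTop_nat 1)).sub hl
      rw [sub_self] at h3
      exact h3.congr fun n => (e n).symm
    have h4 : Tendsto (fun n => 2 * n2 ξ (f (V n)) ^ 2) atTop (𝓝 (2 * 0)) :=
      hstep0.const_mul 2
    rw [mul_zero] at h4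
    have h5 : n2 ξ w ^ 2 ≤ 0 := ge_of_tendsto h4 (Eventually.of_forall hall)
    have h6 : n2 ξ w = 0 := by
      have := sq_nonneg (n2 ξ w)
      nlinarith [n2_nonneg ξ w]
    exact eq_zero_of_n2 hN hw h6

end Pool.Agent.H46.G2
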